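import Mathlib

/-!
Tube doubling: general facts on thickenings of unions of segments, compactness (finite families
are as good as arbitrary ones), scaling, isometries and change of thickness.
-/

set_option autoImplicit false

open MeasureTheory Metric Set Module
open scoped ENNReal Pointwise

namespace Pool.Agent.helper23.TubeDouble

/-- The points `c + t v` with `(c, v) ∈ S` and `|t| ≤ a`. -/
def SG {V : Type*} [NormedAddCommGroup V] [NormedSpace ℝ V] (a : ℝ) (S : Set (V × V)) : Set V :=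
  {y | ∃ p ∈ S, ∃ t : ℝ, |t| ≤ a ∧ y = p.1 + t • p.2}

theorem iUnion_tube_eq {V : Type*} [NormedAddCommGroup V] [NormedSpace ℝ V] (a r : ℝ)
    (S : Set (V × V)) :
    (⋃ p ∈ S, {x : V | ∃ t ∈ Icc (-a) a, dist x (p.1 + t • p.2) < r}) =
      thickening r (SG a S) := by
  ext x
  simp only [mem_iUnion, mem_ofPred_eq, mem_thickening_iff, SG, exists_prop]
  constructor
  · rintro ⟨p, hp, t, ht, hx⟩
    exact ⟨_, ⟨p, hp, t, abs_le.mpr ⟨ht.1, ht.2⟩, rfl⟩, hx⟩
  · rintro ⟨_, ⟨p, hp, t, ht, rfl⟩, hx⟩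
    exact ⟨p, hp, t, ⟨(abs_le.mp ht).1, (abs_le.mp ht).2⟩, hx⟩

/-- The doubling bound in a Euclidean space, for arbitrary families. -/
def BdV (V : Type*) [NormedAddCommGroup V] [InnerProductSpace ℝ V] [MeasureSpace V]
    (δ : ℝ) (K : ℝ≥0∞) : Prop :=
  ∀ S : Set (V × V), (∀ p ∈ S, ‖p.2‖ = 1) →
    volume (thickening (2 * δ) (SG 1 S)) ≤ K * volume (thickening δ (SG (1 / 2) S))

section Gen

variable {V : Type*} [NormedAddCommGroup V] [InnerProductSpace ℝ V] [MeasurableSpace V]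
  [BorelSpace V] [FiniteDimensional ℝ V]

/-- Finite families suffice. -/
theorem bdV_of_finset {δ : ℝ} {K : ℝ≥0∞}
    (h : ∀ S : Finset (V × V), (∀ p ∈ S, ‖p.2‖ = 1) →
      volume (⋃ p ∈ S, {x : V | ∃ t ∈ Icc (-1 : ℝ) 1, dist x (p.1 + t • p.2) < 2 * δ}) ≤
        K * volume (⋃ p ∈ S, {x : V | ∃ t ∈ Icc (-1 / 2 : ℝ) (1 / 2),
          dist x (p.1 + t • p.2) < δ})) :
    BdV V δ K := by
  intro S hS
  rw [isOpen_thickening.measure_eq_iSup_isCompact]
  refine iSup₂_le fun C hCU => iSup_le fun hC => ?_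
  have hopen : ∀ p ∈ S, IsOpen (thickening (2 * δ) (SG 1 ({p} : Set (V × V)))) :=
    fun p _ => isOpen_thickening
  have hcov : C ⊆ ⋃ p ∈ S, thickening (2 * δ) (SG 1 ({p} : Set (V × V))) := by
    intro x hx
    obtain ⟨_, ⟨p, hp, t, ht, rfl⟩, hd⟩ := mem_thickening_iff.mp (hCU hx)
    exact mem_iUnion₂.mpr ⟨p, hp, mem_thickening_iff.mpr ⟨_, ⟨p, rfl, t, ht, rfl⟩, hd⟩⟩
  obtain ⟨b, hbS, hbf, hb⟩ := hC.elim_finite_subcover_image hopen hcov
  have h1 := h hbf.toFinset (fun p hp => hS p (hbS (hbf.mem_toFinset.mp hp)))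
  have e1 : (⋃ p ∈ hbf.toFinset, {x : V | ∃ t ∈ Icc (-1 : ℝ) 1,
      dist x (p.1 + t • p.2) < 2 * δ}) = thickening (2 * δ) (SG 1 b) := by
    rw [← iUnion_tube_eq]
    simp only [Set.Finite.mem_toFinset]
  have e2 : (⋃ p ∈ hbf.toFinset, {x : V | ∃ t ∈ Icc (-1 / 2 : ℝ) (1 / 2),
      dist x (p.1 + t • p.2) < δ}) = thickening δ (SG (1 / 2) b) := by
    rw [← iUnion_tube_eq]
    simp only [Set.Finite.mem_toFinset]
    norm_num
  rw [e1, e2] at h1
  refine le_trans (measure_mono ?_) (h1.trans ?_)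
  · intro x hx
    obtain ⟨p, hp, hx2⟩ := mem_iUnion₂.mp (hb hx)
    obtain ⟨_, ⟨q, hq, t, ht, rfl⟩, hd⟩ := mem_thickening_iff.mp hx2
    rw [mem_singleton_iff] at hq
    subst hq
    exact mem_thickening_iff.mpr ⟨_, ⟨q, hp, t, ht, rfl⟩, hd⟩
  · refine mul_le_mul_right (measure_mono (thickening_subset_of_subset _ ?_)) _
    rintro _ ⟨p, hp, t, ht, rfl⟩
    exact ⟨p, hbS hp, t, ht, rfl⟩

theorem volume_smul_thickening {ρ : ℝ} (hρ : 0 < ρ) (r : ℝ) (A B : Set V)
    (hAB : ∀ x, x ∈ B ↔ ρ • x ∈ A) :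
    volume (thickening (ρ * r) A) =
      ENNReal.ofReal (ρ ^ finrank ℝ V) * volume (thickening r B) := by
  have h1 : thickening (ρ * r) A = ρ • thickening r B := by
    ext x
    rw [mem_smul_set_iff_inv_smul_mem₀ hρ.ne', mem_thickening_iff, mem_thickening_iff]
    constructor
    · rintro ⟨a, ha, hd⟩
      refine ⟨ρ⁻¹ • a, (hAB _).mpr (by rwa [smul_inv_smul₀ hρ.ne']), ?_⟩
      rw [dist_smul₀, Real.norm_of_nonneg (inv_pos.mpr hρ).le, inv_mul_lt_iff₀ hρ]
      exact hd
    · rintro ⟨b, hb, hd⟩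
      refine ⟨ρ • b, (hAB _).mp hb, ?_⟩
      have h2 : x = ρ • (ρ⁻¹ • x) := by rw [smul_inv_smul₀ hρ.ne']
      rw [h2, dist_smul₀, Real.norm_of_nonneg hρ.le]
      exact mul_lt_mul_of_pos_left hd hρ
  rw [h1, Measure.addHaar_smul, abs_of_pos (pow_pos hρ _)]

/-- Scaling: tubes of length `ρ` and thickness `ρ δ`. -/
theorem BdV.scale {δ : ℝ} {K : ℝ≥0∞} (h : BdV V δ K) {ρ : ℝ} (hρ : 0 < ρ)
    (S : Set (V × V)) (hS : ∀ p ∈ S, ‖p.2‖ = ρ) :
    volume (thickening (2 * (ρ * δ)) (SG 1 S)) ≤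
      K * volume (thickening (ρ * δ) (SG (1 / 2) S)) := by
  have h1 := h {p | (ρ • p.1, ρ • p.2) ∈ S} (by
    intro p hp
    have h2 := hS _ hp
    simp only [norm_smul, Real.norm_of_nonneg hρ.le] at h2
    exact mul_left_cancel₀ hρ.ne' (h2.trans (mul_one ρ).symm))
  have key : ∀ (a : ℝ) (x : V), x ∈ SG a {p : V × V | (ρ • p.1, ρ • p.2) ∈ S} ↔
      ρ • x ∈ SG a S := by
    intro a x
    constructor
    · rintro ⟨p, hp, t, ht, rfl⟩
      exact ⟨_, hp, t, ht, by simp only [smul_add, smul_comm ρ t]⟩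
    · rintro ⟨p, hp, t, ht, hx⟩
      refine ⟨(ρ⁻¹ • p.1, ρ⁻¹ • p.2), ?_, t, ht, ?_⟩
      · simp only [mem_ofPred_eq, smul_inv_smul₀ hρ.ne']
        exact hp
      · have h3 : x = ρ⁻¹ • (ρ • x) := by rw [inv_smul_smul₀ hρ.ne']
        rw [h3, hx, smul_add, smul_comm]
  have e1 := volume_smul_thickening hρ (2 * δ) _ _ (key 1)
  have e2 := volume_smul_thickening hρ δ _ _ (key (1 / 2))
  rw [show 2 * (ρ * δ) = ρ * (2 * δ) by ring, e1, e2, mul_left_comm]
  gcongr

/-- Isometry invariance. -/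
theorem BdV.transfer {W : Type*} [NormedAddCommGroup W] [InnerProductSpace ℝ W]
    [MeasurableSpace W] [BorelSpace W] [FiniteDimensional ℝ W] (e : V ≃ₗᵢ[ℝ] W)
    {δ : ℝ} {K : ℝ≥0∞} (h : BdV V δ K) : BdV W δ K := by
  intro S hS
  have h1 := h {p | (e p.1, e p.2) ∈ S} (by
    intro p hp
    have h2 := hS _ hp
    simpa using h2)
  have key : ∀ (a r : ℝ), volume (thickening r (SG a {p : V × V | (e p.1, e p.2) ∈ S})) =
      volume (thickening r (SG a S)) := by
    intro a r
    rw [← e.measurePreserving.measure_preimage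
      isOpen_thickening.measurableSet.nullMeasurableSet]
    congr 1
    ext x
    simp only [mem_preimage, mem_thickening_iff]
    constructor
    · rintro ⟨_, ⟨p, hp, t, ht, rfl⟩, hd⟩
      refine ⟨_, ⟨_, hp, t, ht, rfl⟩, ?_⟩
      rw [← map_smul, ← map_add, e.dist_map]
      exact hd
    · rintro ⟨_, ⟨p, hp, t, ht, rfl⟩, hd⟩
      refine ⟨_, ⟨(e.symm p.1, e.symm p.2), ?_, t, ht, rfl⟩, ?_⟩
      · simp only [mem_ofPred_eq, LinearIsometryEquiv.apply_symm_apply]
        exact hp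
      · rw [← e.dist_map]
        simpa using hd
  rw [key, key] at h1
  exact h1

/-- Change of thickness (Vitali covering). -/
theorem volume_thickening_le (A : Set V) {r K : ℝ} (hr : 0 < r) (hK : 0 ≤ K) :
    volume (thickening (K * r) A) ≤
      ENNReal.ofReal ((2 * K + 5) ^ finrank ℝ V) * volume (thickening r A) := by
  obtain ⟨u, huA, hdis, hu⟩ := Vitali.exists_disjoint_subfamily_covering_enlargement_closedBall
    A (fun x : V => x) (fun _ => r / 2) (r / 2) (fun _ _ => le_rfl) 5 (by norm_num)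
  have hucount : u.Countable := hdis.countable_of_nonempty_interior (by
    intro x _
    rw [interior_closedBall x (by positivity)]
    exact ⟨x, mem_ball_self (by positivity)⟩)
  have hc : (0 : ℝ) ≤ 2 * K + 5 := by linarith
  have hball : ∀ x : V, volume (closedBall x ((2 * K + 5) * (r / 2))) =
      ENNReal.ofReal ((2 * K + 5) ^ finrank ℝ V) * volume (closedBall x (r / 2)) := by
    intro x
    rw [Measure.addHaar_closedBall' _ x (by positivity), Measure.addHaar_closedBall' _ x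
      (by positivity : (0 : ℝ) ≤ r / 2), mul_pow, ENNReal.ofReal_mul (by positivity), mul_assoc]
  calc volume (thickening (K * r) A)
      ≤ volume (⋃ x ∈ u, closedBall x ((2 * K + 5) * (r / 2))) := by
        refine measure_mono ?_
        intro x hx
        obtain ⟨a, ha, hd⟩ := mem_thickening_iff.mp hx
        obtain ⟨b, hb, hsub⟩ := hu a ha
        have h1 : a ∈ closedBall b (5 * (r / 2)) :=
          hsub (mem_closedBall_self (by positivity))
        rw [mem_closedBall] at h1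
        refine mem_iUnion₂.mpr ⟨b, hb, ?_⟩
        rw [mem_closedBall]
        have h2 := dist_triangle x a b
        linarith
    _ ≤ ∑' x : u, volume (closedBall (x : V) ((2 * K + 5) * (r / 2))) :=
        measure_biUnion_le _ hucount _
    _ = ENNReal.ofReal ((2 * K + 5) ^ finrank ℝ V) *
          ∑' x : u, volume (closedBall (x : V) (r / 2)) := by
        rw [← ENNReal.tsum_mul_left]
        exact tsum_congr fun x => hball x
    _ = ENNReal.ofReal ((2 * K + 5) ^ finrank ℝ V) *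
          volume (⋃ x ∈ u, closedBall x (r / 2)) := by
        rw [measure_biUnion hucount hdis (fun x _ => measurableSet_closedBall)]
    _ ≤ ENNReal.ofReal ((2 * K + 5) ^ finrank ℝ V) * volume (thickening r A) := by
        gcongr
        refine iUnion₂_subset fun x hx => ?_
        intro y hy
        rw [mem_closedBall] at hy
        exact mem_thickening_iff.mpr ⟨x, huA hx, by linarith⟩

end Gen

end Pool.Agent.helper23.TubeDouble
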