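import Mathlib
import Pool.Agent.helper23.TubeDouble.Basic

/-!
Tube doubling: slabs near the ends of the doubled segments, and the product construction.
-/

set_option autoImplicit false

open MeasureTheory Metric Set Module
open scoped ENNReal Pointwise

namespace Pool.Agent.helper23.TubeDouble

/-- The `j`-th slab: points `c + t v` with `1 - 3 ^ (-j) ≤ |t| ≤ 1 - 3 ^ (-(j + 1))`. -/
def SL {V : Type*} [NormedAddCommGroup V] [NormedSpace ℝ V] (j : ℕ) (S : Set (V × V)) : Set V :=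
  {y | ∃ p ∈ S, ∃ t : ℝ, 1 - (1 / 3 : ℝ) ^ j ≤ |t| ∧ |t| ≤ 1 - (1 / 3 : ℝ) ^ (j + 1) ∧
    y = p.1 + t • p.2}

theorem exists_slab {t : ℝ} (J : ℕ) (ht : |t| ≤ 1 - (1 / 3 : ℝ) ^ (J + 1)) :
    ∃ j ∈ Finset.range (J + 1), 1 - (1 / 3 : ℝ) ^ j ≤ |t| ∧ |t| ≤ 1 - (1 / 3 : ℝ) ^ (j + 1) := by
  induction J with
  | zero => exact ⟨0, by simp, by simp, ht⟩
  | succ J ih =>
    by_cases h : |t| ≤ 1 - (1 / 3 : ℝ) ^ (J + 1)
    · obtain ⟨j, hj, h1, h2⟩ := ih h
      exact ⟨j, Finset.mem_range.mpr ((Finset.mem_range.mp hj).trans (Nat.lt_succ_self _)), h1, h2⟩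
    · exact ⟨J + 1, by simp, (not_le.mp h).le, ht⟩

section Dec

variable {V : Type*} [NormedAddCommGroup V] [InnerProductSpace ℝ V] [MeasurableSpace V]
  [BorelSpace V] [FiniteDimensional ℝ V]

/-- The doubled tubes are controlled by the slabs. -/
theorem volume_double_le_sum {δ : ℝ} (hδ : 0 < δ) {J : ℕ} (hJ : (1 / 3 : ℝ) ^ (J + 1) ≤ δ)
    (S : Set (V × V)) (hS : ∀ p ∈ S, ‖p.2‖ = 1) :
    volume (thickening (2 * δ) (SG 1 S)) ≤ ENNReal.ofReal (23 ^ finrank ℝ V) *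
      ∑ j ∈ Finset.range (J + 1), volume (thickening (δ / 3) (SL j S)) := by
  set A : Set V := ⋃ j ∈ Finset.range (J + 1), SL j S with hA
  have h1 : thickening (2 * δ) (SG 1 S) ⊆ thickening (9 * (δ / 3)) A := by
    intro x hx
    obtain ⟨_, ⟨p, hp, t, ht, rfl⟩, hd⟩ := mem_thickening_iff.mp hx
    have hpow : (0 : ℝ) < (1 / 3 : ℝ) ^ (J + 1) := by positivity
    have hpow1 : (1 / 3 : ℝ) ^ (J + 1) ≤ 1 := pow_le_one₀ (by norm_num) (by norm_num)
    obtain ⟨s, hs, hst⟩ : ∃ s : ℝ, |s| ≤ 1 - (1 / 3 : ℝ) ^ (J + 1) ∧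
        |t - s| ≤ (1 / 3 : ℝ) ^ (J + 1) := by
      refine ⟨(1 - (1 / 3 : ℝ) ^ (J + 1)) * t, ?_, ?_⟩
      · rw [abs_mul, abs_of_nonneg (by linarith)]
        exact mul_le_of_le_one_right (by linarith) ht
      · rw [show t - (1 - (1 / 3 : ℝ) ^ (J + 1)) * t = (1 / 3 : ℝ) ^ (J + 1) * t by ring,
          abs_mul, abs_of_pos hpow]
        exact mul_le_of_le_one_right hpow.le ht
    obtain ⟨j, hj, hj1, hj2⟩ := exists_slab J hs
    refine mem_thickening_iff.mpr ⟨p.1 + s • p.2, ?_, ?_⟩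
    · exact mem_iUnion₂.mpr ⟨j, hj, p, hp, s, hj1, hj2, rfl⟩
    · have h2 : dist (p.1 + t • p.2) (p.1 + s • p.2) ≤ δ := by
        rw [dist_add_left, dist_eq_norm, ← sub_smul, norm_smul, hS p hp, mul_one]
        exact hst.trans hJ
      have h3 := dist_triangle x (p.1 + t • p.2) (p.1 + s • p.2)
      linarith
  calc volume (thickening (2 * δ) (SG 1 S)) ≤ volume (thickening (9 * (δ / 3)) A) :=
        measure_mono h1
    _ ≤ ENNReal.ofReal ((2 * 9 + 5) ^ finrank ℝ V) * volume (thickening (δ / 3) A) :=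
        volume_thickening_le A (by positivity) (by norm_num)
    _ ≤ ENNReal.ofReal (23 ^ finrank ℝ V) *
        ∑ j ∈ Finset.range (J + 1), volume (thickening (δ / 3) (SL j S)) := by
        rw [show (2 * 9 + 5 : ℝ) = 23 by norm_num]
        refine mul_le_mul_right ?_ _
        refine le_trans (measure_mono ?_) (measure_biUnion_finset_le _ _)
        intro x hx
        obtain ⟨y, hy, hd⟩ := mem_thickening_iff.mp hx
        obtain ⟨j, hj, hy2⟩ := mem_iUnion₂.mp hy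
        exact mem_iUnion₂.mpr ⟨j, hj, mem_thickening_iff.mpr ⟨y, hy2, hd⟩⟩

end Dec

section Prod

variable {U V : Type*} [NormedAddCommGroup U] [InnerProductSpace ℝ U] [MeasurableSpace U]
  [BorelSpace U] [FiniteDimensional ℝ U] [NormedAddCommGroup V] [InnerProductSpace ℝ V]
  [MeasurableSpace V] [BorelSpace V] [FiniteDimensional ℝ V]

theorem volume_prod_set (A : Set U) (B : Set V) (hA : MeasurableSet A) (hB : MeasurableSet B) :
    volume {z : WithLp 2 (U × V) | z.fst ∈ A ∧ z.snd ∈ B} = volume A * volume B := by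
  have h1 := (WithLp.volume_preserving_ofLp U V).measure_preimage
    (hA.prod hB).nullMeasurableSet
  rw [Measure.volume_eq_prod, Measure.prod_prod] at h1
  exact h1

/-- The family of tubes in the product. -/
def Sig (j i : ℕ) (S : Set (U × U)) (T : Set (V × V)) :
    Set (WithLp 2 (U × V) × WithLp 2 (U × V)) :=
  {q | ∃ p ∈ S, ∃ p' ∈ T, ∃ τ τ' b b' : ℝ, |τ| ≤ (1 / 3 : ℝ) ^ (j + 1) ∧
    |τ'| ≤ (1 / 3 : ℝ) ^ (i + 1) ∧ |b| = 1 - 2 * (1 / 3 : ℝ) ^ (j + 1) ∧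
    |b'| = 1 - 2 * (1 / 3 : ℝ) ^ (i + 1) ∧
    q.1 = WithLp.toLp 2 (p.1 + τ • p.2, p'.1 + τ' • p'.2) ∧
    q.2 = WithLp.toLp 2 (b • p.2, b' • p'.2)}

theorem exists_split {t : ℝ} {j : ℕ} (h1 : 1 - (1 / 3 : ℝ) ^ j ≤ |t|)
    (h2 : |t| ≤ 1 - (1 / 3 : ℝ) ^ (j + 1)) :
    ∃ τ b : ℝ, |τ| ≤ (1 / 3 : ℝ) ^ (j + 1) ∧ |b| = 1 - 2 * (1 / 3 : ℝ) ^ (j + 1) ∧ t = τ + b := by
  have hp : (0 : ℝ) < (1 / 3 : ℝ) ^ j := by positivity
  have hp1 : (1 / 3 : ℝ) ^ j ≤ 1 := pow_le_one₀ (by norm_num) (by norm_num)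
  have hs : (1 / 3 : ℝ) ^ (j + 1) = (1 / 3 : ℝ) ^ j / 3 := by ring
  rw [hs] at h2 ⊢
  set x : ℝ := (1 / 3 : ℝ) ^ j
  rcases le_or_gt 0 t with ht | ht
  · rw [abs_of_nonneg ht] at h1 h2
    refine ⟨t - (1 - 2 * (x / 3)), 1 - 2 * (x / 3), ?_, abs_of_nonneg (by linarith), by ring⟩
    rw [abs_le]
    constructor <;> linarith
  · rw [abs_of_neg ht] at h1 h2
    refine ⟨t + (1 - 2 * (x / 3)), -(1 - 2 * (x / 3)), ?_, ?_, by ring⟩
    · rw [abs_le]
      constructor <;> linarith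
    · rw [abs_neg, abs_of_nonneg (by linarith)]

/-- The core estimate. -/
theorem slab_mul_slab_le {δ : ℝ} (hδ : 0 < δ) {K : ℝ≥0∞}
    (h : BdV (WithLp 2 (U × V)) (δ / 2) K) (j i : ℕ) (S : Set (U × U)) (T : Set (V × V))
    (hS : ∀ p ∈ S, ‖p.2‖ = 1) (hT : ∀ p ∈ T, ‖p.2‖ = 1) :
    volume (thickening (δ / 3) (SL j S)) * volume (thickening (δ / 3) (SL i T)) ≤
      K * (volume (thickening δ (SG (1 / 2) S)) * volume (thickening δ (SG (1 / 2) T))) := by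
  have hbd : ∀ k : ℕ, (0 : ℝ) < (1 / 3 : ℝ) ^ (k + 1) ∧ (1 / 3 : ℝ) ^ (k + 1) ≤ 1 / 3 := by
    intro k
    refine ⟨by positivity, ?_⟩
    rw [pow_succ]
    have : (1 / 3 : ℝ) ^ k ≤ 1 := pow_le_one₀ (by norm_num) (by norm_num)
    linarith
  obtain ⟨hx0, hx1⟩ := hbd j
  obtain ⟨hy0, hy1⟩ := hbd i
  set β : ℝ := 1 - 2 * (1 / 3 : ℝ) ^ (j + 1) with hβ
  set β' : ℝ := 1 - 2 * (1 / 3 : ℝ) ^ (i + 1) with hβ'
  set ρ : ℝ := Real.sqrt (β ^ 2 + β' ^ 2) with hρdef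
  have hβ1 : 1 / 3 ≤ β := by linarith
  have hβ2 : β ≤ 1 := by linarith
  have hβ'1 : 1 / 3 ≤ β' := by linarith
  have hβ'2 : β' ≤ 1 := by linarith
  have hρ0 : 0 < ρ := Real.sqrt_pos.mpr (by positivity)
  have hρsq : ρ ^ 2 = β ^ 2 + β' ^ 2 := Real.sq_sqrt (by positivity)
  have hρ2 : ρ ≤ 2 := by
    nlinarith [mul_le_mul hβ2 hβ2 (by linarith) (by linarith : (0 : ℝ) ≤ 1),
      mul_le_mul hβ'2 hβ'2 (by linarith) (by linarith : (0 : ℝ) ≤ 1)]
  have hnorm : ∀ q ∈ Sig j i S T, ‖q.2‖ = ρ := by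
    rintro q ⟨p, hp, p', hp', τ, τ', b, b', -, -, hb, hb', -, hq⟩
    rw [hq, WithLp.prod_norm_eq_of_L2]
    simp only [WithLp.toLp_fst, WithLp.toLp_snd, norm_smul, hS p hp, hT p' hp', mul_one,
      Real.norm_eq_abs, hb, hb']
    rw [hρdef]
  have h1 := h.scale hρ0 _ hnorm
  have hbase : thickening (ρ * (δ / 2)) (SG (1 / 2) (Sig j i S T)) ⊆
      {z : WithLp 2 (U × V) | z.fst ∈ thickening δ (SG (1 / 2) S) ∧
        z.snd ∈ thickening δ (SG (1 / 2) T)} := by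
    intro z hz
    obtain ⟨_, ⟨q, ⟨p, hp, p', hp', τ, τ', b, b', hτ, hτ', hb, hb', hq1, hq2⟩, t, ht, rfl⟩, hd⟩ :=
      mem_thickening_iff.mp hz
    rw [hq1, hq2] at hd
    have hlt : ρ * (δ / 2) ≤ δ := by nlinarith
    have hd2 := hd.trans_le hlt
    rw [WithLp.prod_dist_eq_of_L2] at hd2
    have hd3 := (Real.sqrt_lt' hδ).mp hd2
    simp only [WithLp.add_fst, WithLp.add_snd, WithLp.smul_fst, WithLp.smul_snd,
      WithLp.toLp_fst, WithLp.toLp_snd] at hd3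
    have hc : |τ + t * b| ≤ 1 / 2 := by
      have h5 : |t * b| ≤ (1 / 2) * β := by
        rw [abs_mul, hb]
        exact mul_le_mul_of_nonneg_right ht (by linarith)
      have h6 := abs_add_le τ (t * b)
      linarith
    have hc' : |τ' + t * b'| ≤ 1 / 2 := by
      have h5 : |t * b'| ≤ (1 / 2) * β' := by
        rw [abs_mul, hb']
        exact mul_le_mul_of_nonneg_right ht (by linarith)
      have h6 := abs_add_le τ' (t * b')
      linarith
    constructor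
    · refine mem_thickening_iff.mpr ⟨_, ⟨p, hp, τ + t * b, hc, rfl⟩, ?_⟩
      have e : p.1 + (τ + t * b) • p.2 = p.1 + τ • p.2 + t • b • p.2 := by
        rw [add_smul, mul_smul, add_assoc]
      rw [e]
      refine lt_of_pow_lt_pow_left₀ 2 hδ.le (lt_of_le_of_lt ?_ hd3)
      linarith [sq_nonneg (dist z.snd (p'.1 + τ' • p'.2 + t • b' • p'.2))]
    · refine mem_thickening_iff.mpr ⟨_, ⟨p', hp', τ' + t * b', hc', rfl⟩, ?_⟩
      have e : p'.1 + (τ' + t * b') • p'.2 = p'.1 + τ' • p'.2 + t • b' • p'.2 := by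
        rw [add_smul, mul_smul, add_assoc]
      rw [e]
      refine lt_of_pow_lt_pow_left₀ 2 hδ.le (lt_of_le_of_lt ?_ hd3)
      linarith [sq_nonneg (dist z.fst (p.1 + τ • p.2 + t • b • p.2))]
  have hdbl : {z : WithLp 2 (U × V) | z.fst ∈ thickening (δ / 3) (SL j S) ∧
      z.snd ∈ thickening (δ / 3) (SL i T)} ⊆
      thickening (2 * (ρ * (δ / 2))) (SG 1 (Sig j i S T)) := by
    rintro z ⟨hz1, hz2⟩
    obtain ⟨_, ⟨p, hp, u, hu1, hu2, rfl⟩, hd⟩ := mem_thickening_iff.mp hz1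
    obtain ⟨_, ⟨p', hp', u', hu1', hu2', rfl⟩, hd'⟩ := mem_thickening_iff.mp hz2
    obtain ⟨τ, b, hτ, hb, rfl⟩ := exists_split hu1 hu2
    obtain ⟨τ', b', hτ', hb', rfl⟩ := exists_split hu1' hu2'
    refine mem_thickening_iff.mpr ⟨_, ⟨(WithLp.toLp 2 (p.1 + τ • p.2, p'.1 + τ' • p'.2),
      WithLp.toLp 2 (b • p.2, b' • p'.2)), ⟨p, hp, p', hp', τ, τ', b, b', hτ, hτ', hb, hb',
      rfl, rfl⟩, 1, by simp, rfl⟩, ?_⟩
    rw [WithLp.prod_dist_eq_of_L2]
    simp only [WithLp.add_fst, WithLp.add_snd, WithLp.toLp_fst, WithLp.toLp_snd, one_smul]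
    rw [add_smul, ← add_assoc] at hd hd'
    rw [Real.sqrt_lt' (by positivity)]
    have h5 : dist z.fst (p.1 + τ • p.2 + b • p.2) ^ 2 < (δ / 3) ^ 2 :=
      pow_lt_pow_left₀ hd dist_nonneg two_ne_zero
    have h6 : dist z.snd (p'.1 + τ' • p'.2 + b' • p'.2) ^ 2 < (δ / 3) ^ 2 :=
      pow_lt_pow_left₀ hd' dist_nonneg two_ne_zero
    have h7 : (2 * (ρ * (δ / 2))) ^ 2 = (β ^ 2 + β' ^ 2) * δ ^ 2 := by
      rw [← hρsq]
      ring
    rw [h7]
    have h8 : (1 / 3) ^ 2 ≤ β ^ 2 := pow_le_pow_left₀ (by norm_num) hβ1 2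
    have h9 : (1 / 3) ^ 2 ≤ β' ^ 2 := pow_le_pow_left₀ (by norm_num) hβ'1 2
    have h10 : ((1 / 3) ^ 2 + (1 / 3) ^ 2) * δ ^ 2 ≤ (β ^ 2 + β' ^ 2) * δ ^ 2 :=
      mul_le_mul_of_nonneg_right (add_le_add h8 h9) (sq_nonneg δ)
    nlinarith
  rw [← volume_prod_set _ _ isOpen_thickening.measurableSet isOpen_thickening.measurableSet,
    ← volume_prod_set _ _ isOpen_thickening.measurableSet isOpen_thickening.measurableSet]
  exact (measure_mono hdbl).trans (h1.trans (mul_le_mul_right (measure_mono hbase) _))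

/-- Supermultiplicativity with an explicit number of slabs. -/
theorem double_mul_double_le {δ : ℝ} (hδ : 0 < δ) {J : ℕ} (hJ : (1 / 3 : ℝ) ^ (J + 1) ≤ δ)
    {K : ℝ≥0∞} (h : BdV (WithLp 2 (U × V)) (δ / 2) K) (S : Set (U × U)) (T : Set (V × V))
    (hS : ∀ p ∈ S, ‖p.2‖ = 1) (hT : ∀ p ∈ T, ‖p.2‖ = 1) :
    volume (thickening (2 * δ) (SG 1 S)) * volume (thickening (2 * δ) (SG 1 T)) ≤
      ENNReal.ofReal (23 ^ (finrank ℝ U + finrank ℝ V) * (J + 1) ^ 2) * K *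
        (volume (thickening δ (SG (1 / 2) S)) * volume (thickening δ (SG (1 / 2) T))) := by
  have h1 := volume_double_le_sum hδ hJ S hS
  have h2 := volume_double_le_sum hδ hJ T hT
  have h3 := mul_le_mul' h1 h2
  have h4 : (∑ j ∈ Finset.range (J + 1), volume (thickening (δ / 3) (SL j S))) *
      (∑ j ∈ Finset.range (J + 1), volume (thickening (δ / 3) (SL j T))) ≤
      ((J + 1 : ℕ) * (J + 1 : ℕ) : ℝ≥0∞) * (K * (volume (thickening δ (SG (1 / 2) S)) *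
        volume (thickening δ (SG (1 / 2) T)))) := by
    rw [Finset.sum_mul_sum]
    calc ∑ j ∈ Finset.range (J + 1), ∑ i ∈ Finset.range (J + 1),
          volume (thickening (δ / 3) (SL j S)) * volume (thickening (δ / 3) (SL i T))
        ≤ ∑ j ∈ Finset.range (J + 1), ∑ i ∈ Finset.range (J + 1),
          K * (volume (thickening δ (SG (1 / 2) S)) * volume (thickening δ (SG (1 / 2) T))) :=
          Finset.sum_le_sum fun j _ => Finset.sum_le_sum fun i _ =>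
            slab_mul_slab_le hδ h j i S T hS hT
      _ = _ := by
          rw [Finset.sum_const, Finset.sum_const, Finset.card_range, nsmul_eq_mul, nsmul_eq_mul,
            mul_assoc]
  refine h3.trans ?_
  have h5 : ENNReal.ofReal (23 ^ (finrank ℝ U + finrank ℝ V) * (J + 1) ^ 2) =
      ENNReal.ofReal (23 ^ finrank ℝ U) * ENNReal.ofReal (23 ^ finrank ℝ V) *
        ((J + 1 : ℕ) * (J + 1 : ℕ) : ℝ≥0∞) := by
    rw [pow_add, ENNReal.ofReal_mul (by positivity), ENNReal.ofReal_mul (by positivity)]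
    congr 1
    rw [ENNReal.ofReal_pow (by positivity), sq, ← Nat.cast_succ, ENNReal.ofReal_natCast]
  rw [h5]
  calc _ = ENNReal.ofReal (23 ^ finrank ℝ U) * ENNReal.ofReal (23 ^ finrank ℝ V) *
        ((∑ j ∈ Finset.range (J + 1), volume (thickening (δ / 3) (SL j S))) *
        (∑ j ∈ Finset.range (J + 1), volume (thickening (δ / 3) (SL j T)))) := by ring
    _ ≤ _ := by
        refine (mul_le_mul_right h4 _).trans (le_of_eq ?_)
        ring

end Prod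

end Pool.Agent.helper23.TubeDouble
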