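import Mathlib
import Pool.Agent.helper23.TubeDouble.Prod

/-!
Tube doubling: the optimal constant `L n δ`, its supermultiplicativity in the dimension,
its behaviour under change of scale, and powers.
-/

set_option autoImplicit false

open MeasureTheory Metric Set Module
open scoped ENNReal Pointwise

namespace Pool.Agent.helper23.TubeDouble

/-- Euclidean space. -/
abbrev E (n : ℕ) : Type := EuclideanSpace ℝ (Fin n)

/-- The union of the `δ`-tubes around the unit segments with midpoint `p.1` and direction `p.2`,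
`p ∈ S`. -/
def tubes (n : ℕ) (δ : ℝ) (S : Finset (E n × E n)) : Set (E n) :=
  ⋃ p ∈ S, {x : E n | ∃ t ∈ Set.Icc (-1 / 2 : ℝ) (1 / 2), dist x (p.1 + t • p.2) < δ}

/-- The union of the 2-fold dilates of these tubes. -/
def doubles (n : ℕ) (δ : ℝ) (S : Finset (E n × E n)) : Set (E n) :=
  ⋃ p ∈ S, {x : E n | ∃ t ∈ Set.Icc (-1 : ℝ) 1, dist x (p.1 + t • p.2) < 2 * δ}

/-- The optimal constant in the tube doubling inequality in dimension `n` at scale `δ`: the
supremum of the ratios `|⋃ doubles| / |⋃ tubes|` over all finite families of `δ`-tubes. -/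
noncomputable def L (n : ℕ) (δ : ℝ) : ℝ≥0∞ :=
  ⨆ (S : Finset (E n × E n)) (_ : ∀ p ∈ S, ‖p.2‖ = 1),
    volume (doubles n δ S) / volume (tubes n δ S)

theorem volume_tubes_ne_top {n : ℕ} {δ : ℝ} (S : Finset (E n × E n))
    (hS : ∀ p ∈ S, ‖p.2‖ = 1) : volume (tubes n δ S) ≠ ∞ := by
  refine ne_top_of_le_ne_top ?_ (measure_mono (?_ : tubes n δ S ⊆
    ⋃ p ∈ S, closedBall p.1 (δ + 1 / 2)))
  · exact ((measure_biUnion_finset_le _ _).trans_lt
      (ENNReal.sum_lt_top.mpr fun p _ => measure_closedBall_lt_top)).ne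
  · intro x hx
    obtain ⟨p, hp, t, ht, hd⟩ := mem_iUnion₂.mp hx
    refine mem_iUnion₂.mpr ⟨p, hp, ?_⟩
    rw [mem_closedBall]
    have h1 : dist (p.1 + t • p.2) p.1 ≤ 1 / 2 := by
      rw [dist_eq_norm, add_sub_cancel_left, norm_smul, hS p hp, mul_one, Real.norm_eq_abs, abs_le]
      exact ⟨by linarith [ht.1], ht.2⟩
    have h2 := dist_triangle x (p.1 + t • p.2) p.1
    linarith

theorem volume_tubes_ne_zero {n : ℕ} {δ : ℝ} (hδ : 0 < δ) (S : Finset (E n × E n))
    (hne : S.Nonempty) : volume (tubes n δ S) ≠ 0 := by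
  obtain ⟨p, hp⟩ := hne
  have h1 : ball p.1 δ ⊆ tubes n δ S := by
    intro x hx
    exact mem_iUnion₂.mpr ⟨p, hp, 0, ⟨by norm_num, by norm_num⟩, by simpa using hx⟩
  exact ((measure_ball_pos volume p.1 hδ).trans_le (measure_mono h1)).ne'

theorem ratio_le_iff {n : ℕ} {δ : ℝ} (hδ : 0 < δ) (S : Finset (E n × E n))
    (hS : ∀ p ∈ S, ‖p.2‖ = 1) (K : ℝ≥0∞) :
    volume (doubles n δ S) / volume (tubes n δ S) ≤ K ↔
      volume (doubles n δ S) ≤ K * volume (tubes n δ S) := by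
  rcases S.eq_empty_or_nonempty with rfl | hne
  · simp [doubles]
  · exact ENNReal.div_le_iff_le_mul (Or.inl (volume_tubes_ne_zero hδ S hne))
      (Or.inl (volume_tubes_ne_top S hS))

/-- `L n δ` is the least constant. -/
theorem L_le_iff {n : ℕ} {δ : ℝ} (hδ : 0 < δ) (K : ℝ≥0∞) :
    L n δ ≤ K ↔ ∀ S : Finset (E n × E n), (∀ p ∈ S, ‖p.2‖ = 1) →
      volume (doubles n δ S) ≤ K * volume (tubes n δ S) := by
  unfold L
  rw [iSup₂_le_iff]
  exact forall₂_congr fun S hS => ratio_le_iff hδ S hS K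

theorem bdV_L {n : ℕ} {δ : ℝ} (hδ : 0 < δ) : BdV (E n) δ (L n δ) :=
  bdV_of_finset ((L_le_iff hδ _).mp le_rfl)

theorem doubles_eq {n : ℕ} {δ : ℝ} (S : Finset (E n × E n)) :
    doubles n δ S = thickening (2 * δ) (SG 1 (S : Set (E n × E n))) := by
  rw [← iUnion_tube_eq]
  rfl

theorem tubes_eq {n : ℕ} {δ : ℝ} (S : Finset (E n × E n)) :
    tubes n δ S = thickening δ (SG (1 / 2) (S : Set (E n × E n))) := by
  rw [← iUnion_tube_eq]
  simp only [tubes, Finset.mem_coe]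
  norm_num

theorem L_le_of_bdV {n : ℕ} {δ : ℝ} (hδ : 0 < δ) {K : ℝ≥0∞} (h : BdV (E n) δ K) :
    L n δ ≤ K := by
  rw [L_le_iff hδ]
  intro S hS
  rw [doubles_eq, tubes_eq]
  exact h _ hS

/-- The splitting of a Euclidean space. -/
noncomputable def splitE (m n : ℕ) : E (m + n) ≃ₗᵢ[ℝ] WithLp 2 (E m × E n) :=
  (LinearIsometryEquiv.piLpCongrLeft 2 ℝ ℝ finSumFinEquiv.symm).trans
    (PiLp.sumPiLpEquivProdLpPiLp 2 (fun _ => ℝ))

theorem exists_J {δ : ℝ} (hδ : 0 < δ) (hδ1 : δ < 1) :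
    ∃ J : ℕ, (1 / 3 : ℝ) ^ (J + 1) ≤ δ ∧ ((J : ℝ) + 1) ≤ 1 + Real.log (1 / δ) := by
  have hlog3 : 1 ≤ Real.log 3 := by
    rw [Real.le_log_iff_exp_le (by norm_num)]
    linarith [Real.exp_one_lt_d9]
  have hl : 0 < Real.log (1 / δ) := Real.log_pos (by rw [lt_div_iff₀ hδ]; linarith)
  set x : ℝ := Real.log (1 / δ) / Real.log 3 with hx
  have hx0 : 0 ≤ x := by positivity
  have hx1 : x ≤ Real.log (1 / δ) := div_le_self hl.le hlog3
  refine ⟨⌊x⌋₊, ?_, ?_⟩
  · have h1 : x < ⌊x⌋₊ + 1 := Nat.lt_floor_add_one x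
    have h2 : Real.log (1 / δ) < (⌊x⌋₊ + 1) * Real.log 3 := by
      rw [hx, div_lt_iff₀ (by linarith)] at h1
      exact h1
    have h3 : Real.log (1 / δ) < Real.log (3 ^ (⌊x⌋₊ + 1)) := by
      rw [Real.log_pow]
      push_cast
      exact h2
    have h4 : 1 / δ < 3 ^ (⌊x⌋₊ + 1) :=
      (Real.log_lt_log_iff (by positivity) (by positivity)).mp h3
    rw [div_pow, one_pow, div_le_iff₀ (by positivity)]
    rw [div_lt_iff₀ hδ] at h4
    linarith
  · linarith [Nat.floor_le hx0]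

/-- Supermultiplicativity of the optimal constant in the dimension, up to a squared logarithm. -/
theorem L_mul_le (m n : ℕ) {δ : ℝ} (hδ : 0 < δ) (hδ1 : δ < 1) :
    L m δ * L n δ ≤
      ENNReal.ofReal (23 ^ (m + n) * (1 + Real.log (1 / δ)) ^ 2) * L (m + n) (δ / 2) := by
  obtain ⟨J, hJ, hJ2⟩ := exists_J hδ hδ1
  have hB : BdV (WithLp 2 (E m × E n)) (δ / 2) (L (m + n) (δ / 2)) :=
    (bdV_L (by positivity)).transfer (splitE m n)
  set K := L (m + n) (δ / 2)
  have key : ∀ (S : Finset (E m × E m)) (T : Finset (E n × E n)), (∀ p ∈ S, ‖p.2‖ = 1) →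
      (∀ p ∈ T, ‖p.2‖ = 1) →
      volume (doubles m δ S) * volume (doubles n δ T) ≤
        ENNReal.ofReal (23 ^ (m + n) * (1 + Real.log (1 / δ)) ^ 2) * K *
          (volume (tubes m δ S) * volume (tubes n δ T)) := by
    intro S T hS hT
    have h1 := double_mul_double_le hδ hJ hB (S : Set (E m × E m)) (T : Set (E n × E n)) hS hT
    rw [← doubles_eq, ← doubles_eq, ← tubes_eq, ← tubes_eq, finrank_euclideanSpace_fin,
      finrank_euclideanSpace_fin] at h1
    refine h1.trans (mul_le_mul_left (mul_le_mul_left (ENNReal.ofReal_le_ofReal ?_) _) _)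
    gcongr
  set X := ENNReal.ofReal (23 ^ (m + n) * (1 + Real.log (1 / δ)) ^ 2) * K
  unfold L
  simp only [ENNReal.iSup_mul, ENNReal.mul_iSup]
  refine iSup₂_le fun T hT => iSup₂_le fun S hS => ?_
  rcases S.eq_empty_or_nonempty with rfl | hSne
  · simp [doubles]
  rcases T.eq_empty_or_nonempty with rfl | hTne
  · simp [doubles]
  have a0 := volume_tubes_ne_zero hδ S hSne
  have a1 := volume_tubes_ne_top (δ := δ) S hS
  have b0 := volume_tubes_ne_zero hδ T hTne
  have b1 := volume_tubes_ne_top (δ := δ) T hT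
  have h2 := key S T hS hT
  rw [div_eq_mul_inv, div_eq_mul_inv, mul_mul_mul_comm, ← ENNReal.mul_inv (Or.inl a0) (Or.inl a1),
    ← div_eq_mul_inv]
  exact ENNReal.div_le_of_le_mul h2

/-- Change of scale. -/
theorem BdV.mono_scale {V : Type*} [NormedAddCommGroup V] [InnerProductSpace ℝ V]
    [MeasurableSpace V] [BorelSpace V] [FiniteDimensional ℝ V] {δ δ' : ℝ} (hδ' : 0 < δ')
    (hle : δ' ≤ δ) {K : ℝ≥0∞} (h : BdV V δ' K) :
    BdV V δ (ENNReal.ofReal (9 ^ finrank ℝ V) * K) := by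
  intro S hS
  have hδ : 0 < δ := hδ'.trans_le hle
  set S'' : Set (V × V) := {q | ∃ p ∈ S, ∃ y : V, ‖y‖ ≤ δ - δ' ∧ q = (p.1 + y, p.2)} with hS''
  have h1 := h S'' (by
    rintro q ⟨p, hp, y, -, rfl⟩
    exact hS p hp)
  have h2 : thickening δ (SG 1 S) ⊆ thickening (2 * δ') (SG 1 S'') := by
    intro x hx
    obtain ⟨_, ⟨p, hp, t, ht, rfl⟩, hd⟩ := mem_thickening_iff.mp hx
    rw [dist_eq_norm] at hd
    set w : V := x - (p.1 + t • p.2) with hw
    refine mem_thickening_iff.mpr ⟨(p.1 + ((δ - δ') / δ) • w) + t • p.2,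
      ⟨(p.1 + ((δ - δ') / δ) • w, p.2), ⟨p, hp, _, ?_, rfl⟩, t, ht, rfl⟩, ?_⟩
    · rw [norm_smul, Real.norm_of_nonneg (div_nonneg (by linarith) hδ.le)]
      calc (δ - δ') / δ * ‖w‖ ≤ (δ - δ') / δ * δ :=
            mul_le_mul_of_nonneg_left hd.le (div_nonneg (by linarith) hδ.le)
        _ = δ - δ' := by field_simp
    · rw [dist_eq_norm]
      have e : x - (p.1 + ((δ - δ') / δ) • w + t • p.2) = (δ' / δ) • w := by
        have e1 : x = w + (p.1 + t • p.2) := by rw [hw]; abel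
        have e2 : (δ' / δ) • w = w - ((δ - δ') / δ) • w := by
          rw [← one_smul ℝ w, smul_smul, smul_smul, ← sub_smul]
          congr 1
          field_simp
          ring
        rw [e2, e1]
        abel
      rw [e, norm_smul, Real.norm_of_nonneg (by positivity)]
      calc δ' / δ * ‖w‖ ≤ δ' / δ * δ := mul_le_mul_of_nonneg_left hd.le (by positivity)
        _ = δ' := by field_simp
        _ < 2 * δ' := by linarith
  have h3 : thickening δ' (SG (1 / 2) S'') ⊆ thickening δ (SG (1 / 2) S) := by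
    intro x hx
    obtain ⟨_, ⟨q, ⟨p, hp, y, hy, rfl⟩, t, ht, rfl⟩, hd⟩ := mem_thickening_iff.mp hx
    refine mem_thickening_iff.mpr ⟨_, ⟨p, hp, t, ht, rfl⟩, ?_⟩
    have h4 : dist (p.1 + y + t • p.2) (p.1 + t • p.2) ≤ δ - δ' := by
      rw [dist_eq_norm]
      have e : p.1 + y + t • p.2 - (p.1 + t • p.2) = y := by abel
      rw [e]
      exact hy
    have h5 := dist_triangle x (p.1 + y + t • p.2) (p.1 + t • p.2)
    have hd' : dist x (p.1 + y + t • p.2) < δ' := hd
    linarith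
  calc volume (thickening (2 * δ) (SG 1 S))
      ≤ ENNReal.ofReal ((2 * 2 + 5) ^ finrank ℝ V) * volume (thickening δ (SG 1 S)) :=
        volume_thickening_le _ hδ (by norm_num)
    _ = ENNReal.ofReal (9 ^ finrank ℝ V) * volume (thickening δ (SG 1 S)) := by
        norm_num
    _ ≤ ENNReal.ofReal (9 ^ finrank ℝ V) * (K * volume (thickening δ (SG (1 / 2) S))) := by
        refine mul_le_mul_right ?_ _
        exact (measure_mono h2).trans (h1.trans (mul_le_mul_right (measure_mono h3) _))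
    _ = _ := by rw [mul_assoc]

/-- The optimal constant is essentially monotone in the scale. -/
theorem L_mono_scale (n : ℕ) {δ δ' : ℝ} (hδ' : 0 < δ') (hle : δ' ≤ δ) :
    L n δ ≤ ENNReal.ofReal (9 ^ n) * L n δ' := by
  have h1 := (bdV_L (n := n) hδ').mono_scale hδ' hle
  rw [finrank_euclideanSpace_fin] at h1
  exact L_le_of_bdV (hδ'.trans_le hle) h1

theorem one_le_L {n : ℕ} (hn : 1 ≤ n) {δ : ℝ} (hδ : 0 < δ) : 1 ≤ L n δ := by
  have hv : ‖(EuclideanSpace.single (⟨0, hn⟩ : Fin n) (1 : ℝ) : E n)‖ = 1 := by simp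
  set v : E n := EuclideanSpace.single (⟨0, hn⟩ : Fin n) (1 : ℝ)
  have hS : ∀ p ∈ ({(0, v)} : Finset (E n × E n)), ‖p.2‖ = 1 := by
    intro p hp
    rw [Finset.mem_singleton] at hp
    rw [hp]
    exact hv
  have h1 := (L_le_iff hδ (L n δ)).mp le_rfl _ hS
  have h2 : tubes n δ {(0, v)} ⊆ doubles n δ {(0, v)} := by
    intro x hx
    obtain ⟨p, hp, t, ht, hd⟩ := mem_iUnion₂.mp hx
    exact mem_iUnion₂.mpr ⟨p, hp, t, ⟨by linarith [ht.1], by linarith [ht.2]⟩,
      hd.trans (by linarith)⟩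
  have h3 : 1 * volume (tubes n δ {(0, v)}) ≤ L n δ * volume (tubes n δ {(0, v)}) := by
    rw [one_mul]
    exact (measure_mono h2).trans h1
  have a0 := volume_tubes_ne_zero hδ ({(0, v)} : Finset (E n × E n)) ⟨_, Finset.mem_singleton_self _⟩
  have a1 := volume_tubes_ne_top (δ := δ) _ hS
  exact (ENNReal.mul_le_mul_iff_left a0 a1).mp h3

end Pool.Agent.helper23.TubeDouble
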