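import Mathlib
import Pool.Agent.helper23.TubeDouble.Const

/-!
Tube doubling: powers, exponents of loss, and comparison of dimensions.
-/

set_option autoImplicit false

open MeasureTheory Metric Set Module
open scoped ENNReal Pointwise

namespace Pool.Agent.helper23.TubeDouble

/-- The loss in dimension `n` is at most `C δ ^ (-A)` for all small `δ`. -/
def LossExp (n : ℕ) (A : ℝ) : Prop :=
  ∃ C δ₀ : ℝ, 0 < δ₀ ∧ ∀ δ : ℝ, 0 < δ → δ < δ₀ → L n δ ≤ ENNReal.ofReal (C * δ ^ (-A))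

theorem log_ge_zero {δ : ℝ} (hδ : 0 < δ) (hδ1 : δ < 1) : 0 ≤ Real.log (1 / δ) :=
  Real.log_nonneg (by rw [le_div_iff₀ hδ]; linarith)

theorem log_two_pow_le {δ : ℝ} (hδ : 0 < δ) (hδ1 : δ < 1) (k : ℕ) :
    1 + Real.log (1 / (δ / 2 ^ k)) ≤ (1 + k) * (1 + Real.log (1 / δ)) := by
  have h0 := log_ge_zero hδ hδ1
  have h1 : Real.log (1 / (δ / 2 ^ k)) = k * Real.log 2 + Real.log (1 / δ) := by
    rw [one_div_div, div_eq_mul_one_div, Real.log_mul (by positivity) (by positivity),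
      Real.log_pow]
  have h2 : Real.log 2 ≤ 1 := by linarith [Real.log_two_lt_d9]
  have h3 : (k : ℝ) * Real.log 2 ≤ k := mul_le_of_le_one_right (by positivity) h2
  rw [h1]
  nlinarith [mul_nonneg (Nat.cast_nonneg (α := ℝ) k) h0]

/-- Powers of the optimal constant. -/
theorem L_pow_le (n k : ℕ) : ∃ C : ℝ, 0 < C ∧ ∀ δ : ℝ, 0 < δ → δ < 1 →
    L n δ ^ (k + 1) ≤ ENNReal.ofReal (C * (1 + Real.log (1 / δ)) ^ (2 * k)) *
      L (n * (k + 1)) (δ / 2 ^ k) := by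
  induction k with
  | zero =>
    refine ⟨1, one_pos, fun δ hδ hδ1 => ?_⟩
    simp
  | succ k ih =>
    obtain ⟨C, hC, hk⟩ := ih
    refine ⟨C * 9 ^ n * (23 ^ (n * (k + 1) + n) * (1 + k) ^ 2), by positivity,
      fun δ hδ hδ1 => ?_⟩
    have hl := log_ge_zero hδ hδ1
    have h2k : (1 : ℝ) ≤ 2 ^ k := one_le_pow₀ (by norm_num)
    have hδk : 0 < δ / 2 ^ k := by positivity
    have hδk1 : δ / 2 ^ k ≤ δ := div_le_self hδ.le h2k
    have h1 := hk δ hδ hδ1
    have h2 := L_mono_scale n hδk hδk1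
    have h3 := L_mul_le (n * (k + 1)) n hδk (hδk1.trans_lt hδ1)
    have h4 : δ / 2 ^ k / 2 = δ / 2 ^ (k + 1) := by
      rw [pow_succ]
      field_simp
    rw [h4] at h3
    rw [pow_succ (L n δ) (k + 1), show n * (k + 1 + 1) = n * (k + 1) + n by ring]
    calc L n δ ^ (k + 1) * L n δ
        ≤ (ENNReal.ofReal (C * (1 + Real.log (1 / δ)) ^ (2 * k)) *
            L (n * (k + 1)) (δ / 2 ^ k)) * (ENNReal.ofReal (9 ^ n) * L n (δ / 2 ^ k)) :=
          mul_le_mul' h1 h2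
      _ = ENNReal.ofReal (C * (1 + Real.log (1 / δ)) ^ (2 * k)) * ENNReal.ofReal (9 ^ n) *
            (L (n * (k + 1)) (δ / 2 ^ k) * L n (δ / 2 ^ k)) := by ring
      _ ≤ ENNReal.ofReal (C * (1 + Real.log (1 / δ)) ^ (2 * k)) * ENNReal.ofReal (9 ^ n) *
            (ENNReal.ofReal (23 ^ (n * (k + 1) + n) *
              (1 + Real.log (1 / (δ / 2 ^ k))) ^ 2) * L (n * (k + 1) + n) (δ / 2 ^ (k + 1))) :=
          mul_le_mul_right h3 _
      _ = ENNReal.ofReal (C * (1 + Real.log (1 / δ)) ^ (2 * k) * 9 ^ n *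
            (23 ^ (n * (k + 1) + n) * (1 + Real.log (1 / (δ / 2 ^ k))) ^ 2)) *
            L (n * (k + 1) + n) (δ / 2 ^ (k + 1)) := by
          rw [ENNReal.ofReal_mul (p := C * (1 + Real.log (1 / δ)) ^ (2 * k) * 9 ^ n)
            (by positivity), ENNReal.ofReal_mul (p := C * (1 + Real.log (1 / δ)) ^ (2 * k))
            (by positivity)]
          simp only [mul_assoc]
      _ ≤ _ := by
          refine mul_le_mul_left (ENNReal.ofReal_le_ofReal ?_) _
          have h5 := log_two_pow_le hδ hδ1 k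
          have h6 : 0 ≤ Real.log (1 / (δ / 2 ^ k)) := log_ge_zero hδk (hδk1.trans_lt hδ1)
          have h7 : (1 + Real.log (1 / (δ / 2 ^ k))) ^ 2 ≤
              ((1 + k) * (1 + Real.log (1 / δ))) ^ 2 :=
            pow_le_pow_left₀ (by linarith) h5 2
          calc C * (1 + Real.log (1 / δ)) ^ (2 * k) * 9 ^ n *
                (23 ^ (n * (k + 1) + n) * (1 + Real.log (1 / (δ / 2 ^ k))) ^ 2)
              ≤ C * (1 + Real.log (1 / δ)) ^ (2 * k) * 9 ^ n *
                (23 ^ (n * (k + 1) + n) * ((1 + k) * (1 + Real.log (1 / δ))) ^ 2) := by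
                gcongr
            _ = _ := by ring

/-- Adding dimensions. -/
theorem L_add_le (n m : ℕ) : ∃ C : ℝ, 0 < C ∧ ∀ δ : ℝ, 0 < δ → δ < 1 →
    L n δ ≤ ENNReal.ofReal (C * (1 + Real.log (1 / δ)) ^ 2) * L (n + m) (δ / 2) := by
  rcases Nat.eq_zero_or_pos m with rfl | hm
  · refine ⟨9 ^ n, by positivity, fun δ hδ hδ1 => ?_⟩
    have hl := log_ge_zero hδ hδ1
    refine (L_mono_scale n (half_pos hδ) (half_le_self hδ.le)).trans ?_
    refine mul_le_mul_left (ENNReal.ofReal_le_ofReal ?_) _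
    exact le_mul_of_one_le_right (by positivity) (one_le_pow₀ (by linarith))
  · refine ⟨23 ^ (n + m), by positivity, fun δ hδ hδ1 => ?_⟩
    calc L n δ = L n δ * 1 := (mul_one _).symm
      _ ≤ L n δ * L m δ := mul_le_mul_right (one_le_L hm hδ) _
      _ ≤ _ := L_mul_le n m hδ hδ1

/-- Powers, and room for further dimensions. -/
theorem L_pow_le' {n k N : ℕ} (hk : 1 ≤ k) (hN : n * k ≤ N) : ∃ C : ℝ, 0 < C ∧
    ∀ δ : ℝ, 0 < δ → δ < 1 →
    L n δ ^ k ≤ ENNReal.ofReal (C * (1 + Real.log (1 / δ)) ^ (2 * k)) * L N (δ / 2 ^ k) := by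
  obtain ⟨k, rfl⟩ : ∃ k', k = k' + 1 := ⟨k - 1, by omega⟩
  obtain ⟨m, rfl⟩ : ∃ m, N = n * (k + 1) + m := ⟨N - n * (k + 1), by omega⟩
  obtain ⟨C, hC, h1⟩ := L_pow_le n k
  obtain ⟨C', hC', h2⟩ := L_add_le (n * (k + 1)) m
  refine ⟨C * (C' * (1 + k) ^ 2), by positivity, fun δ hδ hδ1 => ?_⟩
  have hl := log_ge_zero hδ hδ1
  have h2k : (1 : ℝ) ≤ 2 ^ k := one_le_pow₀ (by norm_num)
  have hδk : 0 < δ / 2 ^ k := by positivity
  have hδk1 : δ / 2 ^ k ≤ δ := div_le_self hδ.le h2k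
  have h3 := h2 _ hδk (hδk1.trans_lt hδ1)
  have h4 : δ / 2 ^ k / 2 = δ / 2 ^ (k + 1) := by
    rw [pow_succ]
    field_simp
  rw [h4] at h3
  calc L n δ ^ (k + 1) ≤ ENNReal.ofReal (C * (1 + Real.log (1 / δ)) ^ (2 * k)) *
        L (n * (k + 1)) (δ / 2 ^ k) := h1 δ hδ hδ1
    _ ≤ ENNReal.ofReal (C * (1 + Real.log (1 / δ)) ^ (2 * k)) *
        (ENNReal.ofReal (C' * (1 + Real.log (1 / (δ / 2 ^ k))) ^ 2) *
          L (n * (k + 1) + m) (δ / 2 ^ (k + 1))) := mul_le_mul_right h3 _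
    _ = ENNReal.ofReal (C * (1 + Real.log (1 / δ)) ^ (2 * k) *
        (C' * (1 + Real.log (1 / (δ / 2 ^ k))) ^ 2)) *
          L (n * (k + 1) + m) (δ / 2 ^ (k + 1)) := by
        rw [ENNReal.ofReal_mul (p := C * (1 + Real.log (1 / δ)) ^ (2 * k)) (by positivity),
          mul_assoc]
    _ ≤ _ := by
        refine mul_le_mul_left (ENNReal.ofReal_le_ofReal ?_) _
        have h5 := log_two_pow_le hδ hδ1 k
        have h6 : 0 ≤ Real.log (1 / (δ / 2 ^ k)) := log_ge_zero hδk (hδk1.trans_lt hδ1)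
        have h7 : (1 + Real.log (1 / (δ / 2 ^ k))) ^ 2 ≤
            ((1 + k) * (1 + Real.log (1 / δ))) ^ 2 :=
          pow_le_pow_left₀ (by linarith) h5 2
        calc C * (1 + Real.log (1 / δ)) ^ (2 * k) *
              (C' * (1 + Real.log (1 / (δ / 2 ^ k))) ^ 2)
            ≤ C * (1 + Real.log (1 / δ)) ^ (2 * k) *
              (C' * ((1 + k) * (1 + Real.log (1 / δ))) ^ 2) := by
              gcongr
          _ = _ := by
              ring

theorem log_bound {η : ℝ} (hη : 0 < η) {δ : ℝ} (hδ : 0 < δ) (hδ1 : δ < 1) :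
    1 + Real.log (1 / δ) ≤ (1 + 1 / η) * δ ^ (-η) := by
  have h1 : Real.log (1 / δ) ≤ (1 / δ) ^ η / η := Real.log_le_rpow_div (by positivity) hη
  have h2 : (1 / δ) ^ η = δ ^ (-η) := by
    rw [one_div, Real.inv_rpow hδ.le, Real.rpow_neg hδ.le]
  have h3 : 1 ≤ δ ^ (-η) := Real.one_le_rpow_of_pos_of_le_one_of_nonpos hδ hδ1.le (by linarith)
  rw [h2] at h1
  calc 1 + Real.log (1 / δ) ≤ δ ^ (-η) + δ ^ (-η) / η := add_le_add h3 h1
    _ = _ := by ring

/-- Comparison of the exponents of loss in two dimensions. -/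
theorem LossExp.down {n k N : ℕ} (hk : 1 ≤ k) (hN : n * k ≤ N) {A : ℝ} (h : LossExp N A)
    {ε : ℝ} (hε : 0 < ε) : LossExp n (A / k + ε) := by
  obtain ⟨C, δ₀, hδ₀, hC⟩ := h
  obtain ⟨D, hD, hpow⟩ := L_pow_le' hk hN
  have hk0 : (0 : ℝ) < k := by exact_mod_cast hk
  set η : ℝ := ε / 2 with hη
  have hη0 : 0 < η := by positivity
  set M : ℝ := D * (1 + 1 / η) ^ (2 * k) * (|C| * (2 ^ k) ^ A) + 1 with hM
  have hM1 : 1 ≤ M := by
    have : 0 ≤ D * (1 + 1 / η) ^ (2 * k) * (|C| * (2 ^ k) ^ A) := by positivity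
    linarith
  refine ⟨M, min δ₀ 1, lt_min hδ₀ one_pos, fun δ hδ hlt => ?_⟩
  have hδ1 : δ < 1 := hlt.trans_le (min_le_right _ _)
  have hδ2 : δ < δ₀ := hlt.trans_le (min_le_left _ _)
  have hl := log_ge_zero hδ hδ1
  have h2k : (1 : ℝ) ≤ 2 ^ k := one_le_pow₀ (by norm_num)
  have hδk : 0 < δ / 2 ^ k := by positivity
  have hδk1 : δ / 2 ^ k ≤ δ := div_le_self hδ.le h2k
  have h1 := hpow δ hδ hδ1
  have h2 := hC _ hδk (hδk1.trans_lt hδ2)
  have h3 : L n δ ^ k ≤ ENNReal.ofReal ((M * δ ^ (-(A / k + ε))) ^ k) := by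
    refine h1.trans ((mul_le_mul_right h2 _).trans ?_)
    rw [← ENNReal.ofReal_mul (by positivity)]
    refine ENNReal.ofReal_le_ofReal ?_
    have e1 : (δ / 2 ^ k) ^ (-A) = (2 ^ k) ^ A * δ ^ (-A) := by
      rw [Real.div_rpow hδ.le (by positivity), Real.rpow_neg (x := (2 : ℝ) ^ k) (by positivity),
        div_inv_eq_mul, mul_comm]
    have e2 : (δ ^ (-(A / k + ε))) ^ k = δ ^ (-A) * (δ ^ (-η)) ^ (2 * k) := by
      rw [← Real.rpow_natCast, ← Real.rpow_mul hδ.le, ← Real.rpow_natCast, ← Real.rpow_mul hδ.le,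
        ← Real.rpow_add hδ]
      congr 1
      push_cast
      field_simp
      rw [hη]
      ring
    have h4 : (1 + Real.log (1 / δ)) ^ (2 * k) ≤ ((1 + 1 / η) * δ ^ (-η)) ^ (2 * k) :=
      pow_le_pow_left₀ (by linarith) (log_bound hη0 hδ hδ1) _
    calc D * (1 + Real.log (1 / δ)) ^ (2 * k) * (C * (δ / 2 ^ k) ^ (-A))
        ≤ D * (1 + Real.log (1 / δ)) ^ (2 * k) * (|C| * (δ / 2 ^ k) ^ (-A)) :=
          mul_le_mul_of_nonneg_left
            (mul_le_mul_of_nonneg_right (le_abs_self C) (by positivity)) (by positivity)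
      _ ≤ D * ((1 + 1 / η) * δ ^ (-η)) ^ (2 * k) * (|C| * (δ / 2 ^ k) ^ (-A)) :=
          mul_le_mul_of_nonneg_right (mul_le_mul_of_nonneg_left h4 hD.le) (by positivity)
      _ = (D * (1 + 1 / η) ^ (2 * k) * (|C| * (2 ^ k) ^ A)) *
            (δ ^ (-A) * (δ ^ (-η)) ^ (2 * k)) := by
          rw [e1, mul_pow]
          ring
      _ ≤ M * (δ ^ (-A) * (δ ^ (-η)) ^ (2 * k)) := by
          refine mul_le_mul_of_nonneg_right (by linarith) (by positivity)
      _ ≤ M ^ k * (δ ^ (-A) * (δ ^ (-η)) ^ (2 * k)) := by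
          refine mul_le_mul_of_nonneg_right ?_ (by positivity)
          exact le_self_pow₀ hM1 (by omega)
      _ = (M * δ ^ (-(A / k + ε))) ^ k := by
          rw [mul_pow, e2]
  rw [ENNReal.ofReal_pow (by positivity)] at h3
  exact (ENNReal.pow_le_pow_left_iff (by omega)).mp h3

end Pool.Agent.helper23.TubeDouble
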